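import Pool.Agent.H14R3.KK.Defs

/-! Task ES of project KK (MP_d47e08_pr) (helper25): the Efron-Stein inequality. The first part is
adapted from Pool.Agent.H5R2.NL.Poin. -/

set_option autoImplicit false
open MeasureTheory ProbabilityTheory Filter Topology

namespace KK14

namespace ESx

noncomputable section

open MeasureTheory Metric Set
open scoped ENNReal

section ES

variable {ι : Type*} [Fintype ι] [DecidableEq ι]

/-- resampling one coordinate preserves the product measure -/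
theorem pbb_mp (μ : Measure ℝ) [IsProbabilityMeasure μ] (i : ι) :
    MeasurePreserving (fun q : (ι → ℝ) × ℝ => Function.update q.1 i q.2)
      ((Measure.pi fun _ : ι => μ).prod μ) (Measure.pi fun _ : ι => μ) := by
  have hm : Measurable (fun q : (ι → ℝ) × ℝ => Function.update q.1 i q.2) :=
    measurable_update'
  refine ⟨hm, ?_⟩
  symm
  apply Measure.pi_eq
  intro s hs
  rw [Measure.map_apply hm (MeasurableSet.univ_pi hs)]
  have h1 : (fun q : (ι → ℝ) × ℝ => Function.update q.1 i q.2) ⁻¹' (Set.univ.pi s) =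
      (Set.univ.pi (Function.update s i univ)) ×ˢ s i := by
    ext ⟨x, t⟩
    simp only [mem_preimage, mem_univ_pi, mem_prod]
    constructor
    · intro h
      refine ⟨fun j => ?_, ?_⟩
      · by_cases hj : j = i
        · subst hj; simp
        · have := h j; simpa [hj] using this
      · simpa using h i
    · rintro ⟨h1, h2⟩ j
      by_cases hj : j = i
      · subst hj; simpa using h2
      · simpa [hj] using h1 j
  rw [h1, Measure.prod_prod, Measure.pi_pi]
  have e : (fun j => μ (Function.update s i univ j)) =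
      Function.update (fun j => μ (s j)) i 1 := by
    ext j
    by_cases hj : j = i
    · subst hj; simp
    · simp [hj]
  rw [e, Finset.prod_update_of_mem (Finset.mem_univ i), one_mul, mul_comm]
  exact (Finset.prod_eq_mul_prod_sdiff_singleton_of_mem (Finset.mem_univ i)
    fun j => μ (s j)).symm

theorem pbb_resample {F : Type*} [NormedAddCommGroup F] [NormedSpace ℝ F]
    (μ : Measure ℝ) [IsProbabilityMeasure μ] (i : ι) (f : (ι → ℝ) → F)
    (hf : StronglyMeasurable f) (B : ℝ) (hB : ∀ x, ‖f x‖ ≤ B) :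
    ∫ x, f x ∂(Measure.pi fun _ : ι => μ) =
      ∫ x, ∫ t, f (Function.update x i t) ∂μ ∂(Measure.pi fun _ : ι => μ) := by
  have hmp := pbb_mp μ i
  conv_lhs => rw [← hmp.map_eq]
  rw [integral_map hmp.measurable.aemeasurable hf.aestronglyMeasurable]
  rw [integral_prod]
  exact Integrable.of_bound (hf.comp_measurable hmp.measurable).aestronglyMeasurable B
    (Filter.Eventually.of_forall fun x => hB _)

theorem pbb_resample_l (μ : Measure ℝ) [IsProbabilityMeasure μ] (i : ι) (f : (ι → ℝ) → ℝ≥0∞)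
    (hf : Measurable f) :
    ∫⁻ x, f x ∂(Measure.pi fun _ : ι => μ) =
      ∫⁻ x, ∫⁻ t, f (Function.update x i t) ∂μ ∂(Measure.pi fun _ : ι => μ) := by
  have hmp := pbb_mp μ i
  conv_lhs => rw [← hmp.map_eq]
  rw [lintegral_map hf hmp.measurable]
  exact lintegral_prod _ (hf.comp hmp.measurable).aemeasurable

/-- average over one coordinate -/
def pbbE (μ : Measure ℝ) (i : ι) (u : (ι → ℝ) → ℂ) (x : ι → ℝ) : ℂ :=
  ∫ t, u (Function.update x i t) ∂μ

variable (μ : Measure ℝ) [IsProbabilityMeasure μ]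

theorem pbbE_meas (i : ι) {u : (ι → ℝ) → ℂ} (hu : Measurable u) : Measurable (pbbE μ i u) := by
  unfold pbbE
  have h1 : StronglyMeasurable fun q : (ι → ℝ) × ℝ => u (Function.update q.1 i q.2) :=
    (hu.comp measurable_update').stronglyMeasurable
  exact h1.integral_prod_right'.measurable

omit [Fintype ι] in
theorem pbbE_bdd (i : ι) {u : (ι → ℝ) → ℂ} {B : ℝ} (hB : ∀ x, ‖u x‖ ≤ B) (x : ι → ℝ) :
    ‖pbbE μ i u x‖ ≤ B := by
  unfold pbbE
  refine (norm_integral_le_of_norm_le_const (C := B)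
    (Filter.Eventually.of_forall fun t => hB _)).trans ?_
  simp

omit [Fintype ι] [IsProbabilityMeasure μ] in
theorem pbbE_update (i : ι) (u : (ι → ℝ) → ℂ) (x : ι → ℝ) (t : ℝ) :
    pbbE μ i u (Function.update x i t) = pbbE μ i u x := by
  unfold pbbE
  simp only [Function.update_idem]

/-- variance decomposition for one variable -/
theorem pbb_var {α : Type*} [MeasurableSpace α] (ν : Measure α) [IsProbabilityMeasure ν]
    (g : α → ℂ) (hg : Integrable g ν) (hg2 : Integrable (fun x => ‖g x‖ ^ 2) ν) :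
    ∫ x, ‖g x - ∫ y, g y ∂ν‖ ^ 2 ∂ν = ∫ x, ‖g x‖ ^ 2 ∂ν - ‖∫ y, g y ∂ν‖ ^ 2 := by
  obtain ⟨m, hm⟩ : ∃ m, m = ∫ y, g y ∂ν := ⟨_, rfl⟩
  rw [← hm]
  have h1 : ∀ x, ‖g x - m‖ ^ 2 = ‖g x‖ ^ 2 - 2 * inner ℝ m (g x) + ‖m‖ ^ 2 := by
    intro x
    rw [norm_sub_sq_real, real_inner_comm]
  have hi : Integrable (fun x => inner ℝ m (g x)) ν := hg.const_inner m
  have h2 : ∫ x, inner ℝ m (g x) ∂ν = ‖m‖ ^ 2 := by
    rw [integral_inner hg m, ← hm, real_inner_self_eq_norm_sq]
  simp_rw [h1]
  have h3 : ∫ x, (‖g x‖ ^ 2 - 2 * inner ℝ m (g x) + ‖m‖ ^ 2) ∂ν =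
      ∫ x, (‖g x‖ ^ 2 - 2 * inner ℝ m (g x)) ∂ν + ∫ _, ‖m‖ ^ 2 ∂ν :=
    integral_add (hg2.sub (hi.const_mul 2)) (integrable_const _)
  rw [h3, integral_sub hg2 (hi.const_mul 2), integral_const_mul, h2]
  simp
  ring

theorem pbb_decomp (i : ι) {w : (ι → ℝ) → ℂ} (hw : Measurable w) {B : ℝ}
    (hB : ∀ x, ‖w x‖ ≤ B) :
    ∫ x, ‖w x‖ ^ 2 ∂(Measure.pi fun _ : ι => μ) =
      ∫ x, ‖w x - pbbE μ i w x‖ ^ 2 ∂(Measure.pi fun _ : ι => μ) +
        ∫ x, ‖pbbE μ i w x‖ ^ 2 ∂(Measure.pi fun _ : ι => μ) := by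
  have hB0 : 0 ≤ B := (norm_nonneg _).trans (hB (fun _ => 0))
  have hEm := pbbE_meas μ i hw
  have hEb := pbbE_bdd μ i hB
  rw [pbb_resample μ i (fun x => ‖w x‖ ^ 2) (hw.norm.pow_const 2).stronglyMeasurable (B ^ 2)
      (fun x => by
        rw [norm_pow, norm_norm]
        exact pow_le_pow_left₀ (norm_nonneg _) (hB x) 2),
    pbb_resample μ i (fun x => ‖w x - pbbE μ i w x‖ ^ 2)
      ((hw.sub hEm).norm.pow_const 2).stronglyMeasurable ((2 * B) ^ 2)
      (fun x => by
        rw [norm_pow, norm_norm]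
        apply pow_le_pow_left₀ (norm_nonneg _)
        refine (norm_sub_le _ _).trans ?_
        linarith [hB x, hEb x])]
  have h1 : ∀ x : ι → ℝ, ∫ t, ‖w (Function.update x i t)‖ ^ 2 ∂μ =
      (∫ t, ‖w (Function.update x i t) - pbbE μ i w (Function.update x i t)‖ ^ 2 ∂μ) +
        ‖pbbE μ i w x‖ ^ 2 := by
    intro x
    simp only [pbbE_update]
    have hgm : Measurable fun t => w (Function.update x i t) :=
      hw.comp (measurable_update x)
    have h2 := pbb_var μ (fun t => w (Function.update x i t))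
      (Integrable.of_bound hgm.aestronglyMeasurable B (Filter.Eventually.of_forall fun t => hB _))
      (Integrable.of_bound (hgm.norm.pow_const 2).aestronglyMeasurable (B ^ 2)
        (Filter.Eventually.of_forall fun t => by
          rw [norm_pow, norm_norm]
          exact pow_le_pow_left₀ (norm_nonneg _) (hB _) 2))
    have h3 : pbbE μ i w x = ∫ t, w (Function.update x i t) ∂μ := rfl
    rw [h3, h2]
    ring
  simp_rw [h1]
  rw [integral_add]
  · have hmm : StronglyMeasurable fun q : (ι → ℝ) × ℝ =>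
        ‖w (Function.update q.1 i q.2) - pbbE μ i w (Function.update q.1 i q.2)‖ ^ 2 :=
      (((hw.sub hEm).comp measurable_update').norm.pow_const 2).stronglyMeasurable
    refine Integrable.of_bound hmm.integral_prod_right'.aestronglyMeasurable ((2 * B) ^ 2)
      (Filter.Eventually.of_forall fun x => ?_)
    refine (norm_integral_le_of_norm_le_const (C := (2 * B) ^ 2)
      (Filter.Eventually.of_forall fun t => ?_)).trans (by simp)
    rw [norm_pow, norm_norm]
    apply pow_le_pow_left₀ (norm_nonneg _)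
    refine (norm_sub_le _ _).trans ?_
    linarith [hB (Function.update x i t), hEb (Function.update x i t)]
  · refine Integrable.of_bound (hEm.norm.pow_const 2).aestronglyMeasurable (B ^ 2)
      (Filter.Eventually.of_forall fun x => ?_)
    rw [norm_pow, norm_norm]
    exact pow_le_pow_left₀ (norm_nonneg _) (hEb x) 2

theorem pbb_contr (i : ι) {w : (ι → ℝ) → ℂ} (hw : Measurable w) {B : ℝ}
    (hB : ∀ x, ‖w x‖ ≤ B) :
    ∫ x, ‖pbbE μ i w x‖ ^ 2 ∂(Measure.pi fun _ : ι => μ) ≤
      ∫ x, ‖w x‖ ^ 2 ∂(Measure.pi fun _ : ι => μ) := by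
  rw [pbb_decomp μ i hw hB]
  have : 0 ≤ ∫ x, ‖w x - pbbE μ i w x‖ ^ 2 ∂(Measure.pi fun _ : ι => μ) :=
    integral_nonneg fun x => by positivity
  linarith

/-- iterated averages -/
def pbbP (μ : Measure ℝ) (u : (ι → ℝ) → ℂ) : List ι → (ι → ℝ) → ℂ
  | [] => u
  | i :: L => pbbE μ i (pbbP μ u L)

theorem pbbP_meas {u : (ι → ℝ) → ℂ} (hu : Measurable u) (L : List ι) :
    Measurable (pbbP μ u L) := by
  induction L with
  | nil => exact hu
  | cons i L ih => exact pbbE_meas μ i ih

omit [Fintype ι] in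
theorem pbbP_bdd {u : (ι → ℝ) → ℂ} {B : ℝ} (hB : ∀ x, ‖u x‖ ≤ B) (L : List ι) :
    ∀ x, ‖pbbP μ u L x‖ ≤ B := by
  induction L with
  | nil => exact hB
  | cons i L ih => exact pbbE_bdd μ i ih

omit [Fintype ι] [IsProbabilityMeasure μ] in
theorem pbbP_inv (u : (ι → ℝ) → ℂ) (L : List ι) :
    ∀ j ∈ L, ∀ (x : ι → ℝ) (t : ℝ), pbbP μ u L (Function.update x j t) = pbbP μ u L x := by
  induction L with
  | nil => simp
  | cons i L ih =>
    intro j hj x t
    by_cases hji : j = i
    · subst hji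
      exact pbbE_update μ j _ x t
    · have hjL : j ∈ L := by
        rcases List.mem_cons.1 hj with h | h
        · exact absurd h hji
        · exact h
      change pbbE μ i (pbbP μ u L) (Function.update x j t) = pbbE μ i (pbbP μ u L) x
      unfold pbbE
      congr 1
      ext τ
      rw [Function.update_comm hji]
      exact ih j hjL _ t

theorem pbbP_int {u : (ι → ℝ) → ℂ} (hu : Measurable u) {B : ℝ} (hB : ∀ x, ‖u x‖ ≤ B)
    (L : List ι) :
    ∫ x, pbbP μ u L x ∂(Measure.pi fun _ : ι => μ) = ∫ x, u x ∂(Measure.pi fun _ : ι => μ) := by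
  induction L with
  | nil => rfl
  | cons i L ih =>
    rw [← ih]
    rw [pbb_resample μ i (pbbP μ u L) (pbbP_meas μ hu L).stronglyMeasurable B
      (pbbP_bdd μ hB L)]
    rfl

theorem pbb_const {f : (ι → ℝ) → ℂ}
    (hf : ∀ (j : ι) (x : ι → ℝ) (t : ℝ), f (Function.update x j t) = f x) (x y : ι → ℝ) :
    f x = f y := by
  have h : ∀ s : Finset ι, f (s.piecewise y x) = f x := by
    intro s
    induction s using Finset.induction_on with
    | empty => simp
    | insert i s _ ih =>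
      rw [Finset.piecewise_insert, hf, ih]
  have := h Finset.univ
  rw [Finset.piecewise_univ] at this
  exact this.symm

theorem pbb_list {u : (ι → ℝ) → ℂ} (hu : Measurable u) {B : ℝ} (hB : ∀ x, ‖u x‖ ≤ B)
    (L : List ι) :
    ∫ x, ‖u x - pbbP μ u L x‖ ^ 2 ∂(Measure.pi fun _ : ι => μ) ≤
      (L.map fun i => ∫ x, ‖u x - pbbE μ i u x‖ ^ 2 ∂(Measure.pi fun _ : ι => μ)).sum := by
  have hint : ∀ (i : ι) {v : (ι → ℝ) → ℂ}, Measurable v → (∀ x, ‖v x‖ ≤ B) → ∀ x : ι → ℝ,
      Integrable (fun t => v (Function.update x i t)) μ := fun i v hv hvB x =>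
    Integrable.of_bound (hv.comp (measurable_update x)).aestronglyMeasurable B
      (Filter.Eventually.of_forall fun t => hvB _)
  induction L with
  | nil => simp [pbbP]
  | cons i L ih =>
    rw [List.map_cons, List.sum_cons]
    have hPm := pbbP_meas μ hu L
    have hPb := pbbP_bdd μ hB L
    have hEm := pbbE_meas μ i hPm
    have hEb := pbbE_bdd μ i hPb
    have hwm : Measurable fun x => u x - pbbE μ i (pbbP μ u L) x := hu.sub hEm
    have hwb : ∀ x, ‖u x - pbbE μ i (pbbP μ u L) x‖ ≤ 2 * B := fun x => by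
      refine (norm_sub_le _ _).trans ?_
      linarith [hB x, hEb x]
    have h1 : ∀ x, pbbE μ i (fun x => u x - pbbE μ i (pbbP μ u L) x) x =
        pbbE μ i u x - pbbE μ i (pbbP μ u L) x := by
      intro x
      unfold pbbE
      rw [integral_sub (hint i hu hB x)]
      · congr 1
        simp only [Function.update_idem]
        simp
      · simp only [Function.update_idem]
        exact integrable_const _
    have h2 : ∀ x, pbbE μ i (fun x => u x - pbbP μ u L x) x =
        pbbE μ i u x - pbbE μ i (pbbP μ u L) x := by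
      intro x
      unfold pbbE
      rw [integral_sub (hint i hu hB x) (hint i hPm hPb x)]
    change ∫ x, ‖u x - pbbE μ i (pbbP μ u L) x‖ ^ 2 ∂(Measure.pi fun _ : ι => μ) ≤ _
    rw [pbb_decomp μ i hwm hwb]
    have h3 : ∀ x, (u x - pbbE μ i (pbbP μ u L) x) -
        pbbE μ i (fun x => u x - pbbE μ i (pbbP μ u L) x) x = u x - pbbE μ i u x := by
      intro x; rw [h1]; ring
    simp_rw [h3, h1, ← h2]
    have h4 := pbb_contr μ i (w := fun x => u x - pbbP μ u L x) (hu.sub hPm) (B := 2 * B)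
      (fun x => by
        refine (norm_sub_le _ _).trans ?_
        linarith [hB x, hPb x])
    linarith [ih]

end ES

theorem efron_stein {ι : Type*} [Fintype ι] [DecidableEq ι] (μ : Measure ℝ)
    [IsProbabilityMeasure μ] (u : (ι → ℝ) → ℂ) (hu : Measurable u)
    (hb : ∃ B, ∀ x, ‖u x‖ ≤ B) :
    ∫ x, ‖u x - ∫ y, u y ∂(Measure.pi fun _ : ι => μ)‖ ^ 2 ∂(Measure.pi fun _ : ι => μ) ≤
      ∑ i, ∫ x, ‖u x - ∫ t, u (Function.update x i t) ∂μ‖ ^ 2 ∂(Measure.pi fun _ : ι => μ) := by
  obtain ⟨B, hB⟩ := hb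
  have h1 := pbb_list μ hu hB (Finset.univ : Finset ι).toList
  have h2 : ∀ x, pbbP μ u (Finset.univ : Finset ι).toList x =
      ∫ y, u y ∂(Measure.pi fun _ : ι => μ) := by
    intro x
    rw [← pbbP_int μ hu hB (Finset.univ : Finset ι).toList]
    have h3 : ∀ y, pbbP μ u (Finset.univ : Finset ι).toList y =
        pbbP μ u (Finset.univ : Finset ι).toList x := fun y =>
      pbb_const (fun j z t => pbbP_inv μ u _ j (by simp) z t) y x
    simp_rw [h3]
    simp
  simp_rw [h2] at h1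
  refine h1.trans (le_of_eq ?_)
  rw [Finset.sum_map_toList]
  rfl

/-- variance, real version -/
theorem var_eq {α : Type*} [MeasurableSpace α] (ν : Measure α) [IsProbabilityMeasure ν]
    (g : α → ℝ) (hg : Integrable g ν) (hg2 : Integrable (fun x => g x ^ 2) ν) :
    ∫ x, (g x - ∫ y, g y ∂ν) ^ 2 ∂ν = ∫ x, g x ^ 2 ∂ν - (∫ y, g y ∂ν) ^ 2 := by
  obtain ⟨m, hm⟩ : ∃ m, m = ∫ y, g y ∂ν := ⟨_, rfl⟩
  rw [← hm]
  have h1 : ∀ x, (g x - m) ^ 2 = g x ^ 2 - 2 * m * g x + m ^ 2 := fun x => by ring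
  simp_rw [h1]
  have h3 : ∫ x, (g x ^ 2 - 2 * m * g x + m ^ 2) ∂ν =
      ∫ x, (g x ^ 2 - 2 * m * g x) ∂ν + ∫ _, m ^ 2 ∂ν :=
    integral_add (hg2.sub (hg.const_mul (2 * m))) (integrable_const _)
  rw [h3, integral_sub hg2 (hg.const_mul (2 * m)), integral_const_mul, ← hm]
  simp
  ring

theorem pos_neg (a b : ℝ) : (a - b) ^ 2 = (max (a - b) 0) ^ 2 + (max (b - a) 0) ^ 2 := by
  rcases le_total a b with h | h
  · rw [max_eq_right (by linarith), max_eq_left (by linarith)]
    ring
  · rw [max_eq_left (by linarith), max_eq_right (by linarith)]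
    ring

/-- the variance as a double integral of positive parts -/
theorem var_pos (ν : Measure ℝ) [IsProbabilityMeasure ν] (h : ℝ → ℝ) (hm : Measurable h) {B : ℝ}
    (hB : ∀ x, ‖h x‖ ≤ B) :
    ∫ s, (h s - ∫ t, h t ∂ν) ^ 2 ∂ν = ∫ s, ∫ t, (max (h s - h t) 0) ^ 2 ∂ν ∂ν := by
  have hB0 : 0 ≤ B := (norm_nonneg _).trans (hB 0)
  have hI : Integrable h ν :=
    Integrable.of_bound hm.aestronglyMeasurable B (Filter.Eventually.of_forall hB)
  have hI2 : Integrable (fun x => h x ^ 2) ν :=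
    Integrable.of_bound (hm.pow_const 2).aestronglyMeasurable (B ^ 2)
      (Filter.Eventually.of_forall fun x => by
        rw [norm_pow]
        exact pow_le_pow_left₀ (norm_nonneg _) (hB x) 2)
  have hKm : Measurable fun q : ℝ × ℝ => (max (h q.1 - h q.2) 0) ^ 2 :=
    (((hm.comp measurable_fst).sub (hm.comp measurable_snd)).max measurable_const).pow_const 2
  have hKb : ∀ q : ℝ × ℝ, ‖(max (h q.1 - h q.2) 0) ^ 2‖ ≤ (2 * B) ^ 2 := by
    intro q
    rw [norm_pow, Real.norm_eq_abs]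
    apply pow_le_pow_left₀ (abs_nonneg _)
    rw [abs_of_nonneg (le_max_right _ _)]
    apply max_le _ (by positivity)
    have h1 := abs_le.1 (hB q.1)
    have h2 := abs_le.1 (hB q.2)
    linarith [h1.2, h2.1]
  have hKi : Integrable (fun q : ℝ × ℝ => (max (h q.1 - h q.2) 0) ^ 2) (ν.prod ν) :=
    Integrable.of_bound hKm.aestronglyMeasurable _ (Filter.Eventually.of_forall hKb)
  have hKm' : Measurable fun q : ℝ × ℝ => (max (h q.2 - h q.1) 0) ^ 2 :=
    hKm.comp measurable_swap
  have hKi' : Integrable (fun q : ℝ × ℝ => (max (h q.2 - h q.1) 0) ^ 2) (ν.prod ν) :=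
    Integrable.of_bound hKm'.aestronglyMeasurable _
      (Filter.Eventually.of_forall fun q => hKb (q.2, q.1))
  have e1 : ∫ s, ∫ t, (h s - h t) ^ 2 ∂ν ∂ν = 2 * ∫ s, ∫ t, (max (h s - h t) 0) ^ 2 ∂ν ∂ν := by
    have h1 : ∫ s, ∫ t, (h s - h t) ^ 2 ∂ν ∂ν =
        ∫ q : ℝ × ℝ, ((max (h q.1 - h q.2) 0) ^ 2 + (max (h q.2 - h q.1) 0) ^ 2) ∂(ν.prod ν) := by
      have h0 := integral_prod (fun q : ℝ × ℝ =>
        (max (h q.1 - h q.2) 0) ^ 2 + (max (h q.2 - h q.1) 0) ^ 2) (hKi.add hKi')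
      rw [h0]
      simp only [← pos_neg]
    have h2 : ∫ s, ∫ t, (max (h t - h s) 0) ^ 2 ∂ν ∂ν = ∫ s, ∫ t, (max (h s - h t) 0) ^ 2 ∂ν ∂ν :=
      integral_integral_swap (f := fun s t => (max (h t - h s) 0) ^ 2) hKi'
    have h3 := integral_prod (fun q : ℝ × ℝ => (max (h q.1 - h q.2) 0) ^ 2) hKi
    have h4 := integral_prod (fun q : ℝ × ℝ => (max (h q.2 - h q.1) 0) ^ 2) hKi'
    simp only at h3 h4
    rw [h1, integral_add hKi hKi', h3, h4, h2, two_mul]
  have e2 : ∫ s, ∫ t, (h s - h t) ^ 2 ∂ν ∂ν =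
      2 * (∫ x, h x ^ 2 ∂ν - (∫ y, h y ∂ν) ^ 2) := by
    obtain ⟨m, hm'⟩ : ∃ m, m = ∫ y, h y ∂ν := ⟨_, rfl⟩
    obtain ⟨M, hM'⟩ : ∃ M, M = ∫ y, h y ^ 2 ∂ν := ⟨_, rfl⟩
    have h2 : ∀ s, ∫ t, (h s - h t) ^ 2 ∂ν = h s ^ 2 - 2 * m * h s + M := by
      intro s
      have h3 : ∀ t, (h s - h t) ^ 2 = (h s ^ 2 - 2 * h s * h t) + h t ^ 2 := fun t => by ring
      simp_rw [h3]
      have a1 : ∫ t, (h s ^ 2 - 2 * h s * h t + h t ^ 2) ∂ν =
          ∫ t, (h s ^ 2 - 2 * h s * h t) ∂ν + ∫ t, h t ^ 2 ∂ν :=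
        integral_add ((integrable_const _).sub (hI.const_mul _)) hI2
      have a2 : ∫ t, (h s ^ 2 - 2 * h s * h t) ∂ν = ∫ _, h s ^ 2 ∂ν - ∫ t, 2 * h s * h t ∂ν :=
        integral_sub (integrable_const _) (hI.const_mul _)
      rw [a1, a2, integral_const_mul, ← hm', ← hM']
      simp
      ring
    simp_rw [h2]
    have a1 : ∫ s, (h s ^ 2 - 2 * m * h s + M) ∂ν =
        ∫ s, (h s ^ 2 - 2 * m * h s) ∂ν + ∫ _, M ∂ν :=
      integral_add (hI2.sub (hI.const_mul (2 * m))) (integrable_const _)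
    have a2 : ∫ s, (h s ^ 2 - 2 * m * h s) ∂ν = ∫ s, h s ^ 2 ∂ν - ∫ s, 2 * m * h s ∂ν :=
      integral_sub hI2 (hI.const_mul (2 * m))
    rw [a1, a2, integral_const_mul, ← hm', ← hM']
    simp
    ring
  rw [var_eq ν h hI hI2]
  linarith

variable {ι : Type*} [Fintype ι] [DecidableEq ι]

/-- the bounded case -/
theorem es_bdd (ν : Measure ℝ) [IsProbabilityMeasure ν] (g : (ι → ℝ) → ℝ) (hg : Measurable g)
    {B : ℝ} (hB : ∀ x, ‖g x‖ ≤ B) :
    ∫ z, (g z - ∫ y, g y ∂(Measure.pi fun _ : ι => ν)) ^ 2 ∂(Measure.pi fun _ : ι => ν) ≤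
      ∑ i, ∫ z, (∫ t, (max (g z - g (Function.update z i t)) 0) ^ 2 ∂ν)
        ∂(Measure.pi fun _ : ι => ν) := by
  have hB0 : 0 ≤ B := (norm_nonneg _).trans (hB 0)
  have h1 := efron_stein ν (fun z => (g z : ℂ)) (Complex.measurable_ofReal.comp hg)
    ⟨B, fun x => by rw [Complex.norm_real]; exact hB x⟩
  have e1 : ∀ z, ‖(g z : ℂ) - ∫ y, (g y : ℂ) ∂(Measure.pi fun _ : ι => ν)‖ ^ 2 =
      (g z - ∫ y, g y ∂(Measure.pi fun _ : ι => ν)) ^ 2 := by
    intro z
    rw [integral_complex_ofReal, ← Complex.ofReal_sub, Complex.norm_real, Real.norm_eq_abs, sq_abs]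
  have e2 : ∀ (i : ι) (z : ι → ℝ), ‖(g z : ℂ) - ∫ t, (g (Function.update z i t) : ℂ) ∂ν‖ ^ 2 =
      (g z - ∫ t, g (Function.update z i t) ∂ν) ^ 2 := by
    intro i z
    rw [integral_complex_ofReal, ← Complex.ofReal_sub, Complex.norm_real, Real.norm_eq_abs, sq_abs]
  simp only [e1, e2] at h1
  refine h1.trans (le_of_eq ?_)
  refine Finset.sum_congr rfl fun i _ => ?_
  have hu : Measurable fun q : (ι → ℝ) × ℝ => g (Function.update q.1 i q.2) :=
    hg.comp measurable_update'
  have hE : Measurable fun z => ∫ t, g (Function.update z i t) ∂ν :=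
    hu.stronglyMeasurable.integral_prod_right'.measurable
  have hEb : ∀ z, ‖∫ t, g (Function.update z i t) ∂ν‖ ≤ B := by
    intro z
    refine (norm_integral_le_of_norm_le_const (C := B)
      (Filter.Eventually.of_forall fun t => hB _)).trans ?_
    simp
  have hK : Measurable fun q : (ι → ℝ) × ℝ =>
      (max (g q.1 - g (Function.update q.1 i q.2)) 0) ^ 2 :=
    (((hg.comp measurable_fst).sub hu).max measurable_const).pow_const 2
  have hKb : ∀ a b : ℝ, ‖a‖ ≤ B → ‖b‖ ≤ B → ‖(max (a - b) 0) ^ 2‖ ≤ (2 * B) ^ 2 := by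
    intro a b ha hb
    rw [norm_pow, Real.norm_eq_abs]
    apply pow_le_pow_left₀ (abs_nonneg _)
    rw [abs_of_nonneg (le_max_right _ _)]
    apply max_le _ (by positivity)
    have h1 := abs_le.1 ha
    have h2 := abs_le.1 hb
    linarith [h1.2, h2.1]
  rw [pbb_resample ν i (fun z => (g z - ∫ t, g (Function.update z i t) ∂ν) ^ 2)
      ((hg.sub hE).pow_const 2).stronglyMeasurable ((2 * B) ^ 2)
      (fun z => by
        rw [norm_pow]
        apply pow_le_pow_left₀ (norm_nonneg _)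
        refine (norm_sub_le _ _).trans ?_
        linarith [hB z, hEb z]),
    pbb_resample ν i (fun z => ∫ t, (max (g z - g (Function.update z i t)) 0) ^ 2 ∂ν)
      hK.stronglyMeasurable.integral_prod_right' ((2 * B) ^ 2)
      (fun z => by
        refine (norm_integral_le_of_norm_le_const (C := (2 * B) ^ 2)
          (Filter.Eventually.of_forall fun t => hKb _ _ (hB _) (hB _))).trans ?_
        simp)]
  congr 1
  ext z
  simp only [Function.update_idem]
  exact var_pos ν (fun t => g (Function.update z i t)) (hg.comp (measurable_update z))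
    (fun x => hB _)

/-- truncation -/
def cl (n : ℕ) (a : ℝ) : ℝ := max (min a n) (-n)

theorem cl_cont (n : ℕ) : Continuous (cl n) := by
  unfold cl
  fun_prop

theorem cl_bd (n : ℕ) (a : ℝ) : ‖cl n a‖ ≤ n := by
  unfold cl
  rw [Real.norm_eq_abs, abs_le]
  have hn : (0 : ℝ) ≤ n := Nat.cast_nonneg n
  exact ⟨le_max_right _ _, max_le (min_le_right _ _) (by linarith)⟩

theorem cl_abs (n : ℕ) (a : ℝ) : |cl n a| ≤ |a| := by
  unfold cl
  have hn : (0 : ℝ) ≤ n := Nat.cast_nonneg n
  rw [abs_le]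
  constructor
  · refine le_trans ?_ (le_max_left _ _)
    refine le_min (neg_abs_le a) ?_
    linarith [abs_nonneg a]
  · rcases le_total (-(n : ℝ)) (min a n) with h | h
    · rw [max_eq_left h]
      exact (min_le_left _ _).trans (le_abs_self a)
    · rw [max_eq_right h]
      linarith [abs_nonneg a]

theorem cl_sub (n : ℕ) (a b : ℝ) : (max (cl n a - cl n b) 0) ^ 2 ≤ (max (a - b) 0) ^ 2 := by
  apply pow_le_pow_left₀ (le_max_right _ _)
  apply max_le _ (le_max_right _ _)
  have hn : (0 : ℝ) ≤ n := Nat.cast_nonneg n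
  unfold cl
  rcases le_total a b with h | h
  · have h1 : max (min a (n : ℝ)) (-n) ≤ max (min b (n : ℝ)) (-n) :=
      max_le_max (min_le_min h le_rfl) le_rfl
    exact le_trans (by linarith) (le_max_right _ _)
  · refine le_trans ?_ (le_max_left _ _)
    rcases le_total a (n : ℝ) with h1 | h1 <;> rcases le_total b (n : ℝ) with h2 | h2 <;>
      rcases le_total (-(n : ℝ)) a with h3 | h3 <;> rcases le_total (-(n : ℝ)) b with h4 | h4 <;>
      simp only [min_eq_left, min_eq_right, max_eq_left, max_eq_right, h1, h2, h3, h4] <;>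
      first
        | linarith
        | (rw [max_eq_left (by linarith)]; linarith)

theorem cl_lim (a : ℝ) : Tendsto (fun n => cl n a) atTop (𝓝 a) := by
  refine tendsto_const_nhds.congr' ?_
  obtain ⟨N, hN⟩ := exists_nat_ge |a|
  filter_upwards [eventually_ge_atTop N] with n hn
  have h1 : |a| ≤ n := hN.trans (by exact_mod_cast hn)
  have h2 := abs_le.1 h1
  unfold cl
  rw [min_eq_left h2.2, max_eq_left h2.1]

end

end ESx

theorem ES {ι : Type*} [Fintype ι] [DecidableEq ι] (ν : Measure ℝ) [IsProbabilityMeasure ν]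
    (f : (ι → ℝ) → ℝ) (hf : Continuous f)
    (hf2 : Integrable (fun z => f z ^ 2) (Measure.pi fun _ : ι => ν)) :
    ∫ z, (f z - ∫ y, f y ∂(Measure.pi fun _ : ι => ν)) ^ 2 ∂(Measure.pi fun _ : ι => ν) ≤
      ∑ i, ∫ z, (∫ t, (max (f z - f (Function.update z i t)) 0) ^ 2 ∂ν)
        ∂(Measure.pi fun _ : ι => ν) := by
  have hfm : Measurable f := hf.measurable
  have hf1 : Integrable f (Measure.pi fun _ : ι => ν) := by
    have h1 : MemLp f 2 (Measure.pi fun _ : ι => ν) :=
      (memLp_two_iff_integrable_sq hfm.aestronglyMeasurable).2 hf2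
    exact h1.integrable one_le_two
  -- the bounded inequality for the truncations
  have hn : ∀ n : ℕ, ∫ z, (ESx.cl n (f z)) ^ 2 ∂(Measure.pi fun _ : ι => ν) -
      (∫ z, ESx.cl n (f z) ∂(Measure.pi fun _ : ι => ν)) ^ 2 ≤
      ∑ i, ∫ z, (∫ t, (max (f z - f (Function.update z i t)) 0) ^ 2 ∂ν)
        ∂(Measure.pi fun _ : ι => ν) := by
    intro n
    have hm : Measurable fun z => ESx.cl n (f z) := (ESx.cl_cont n).measurable.comp hfm
    have hi1 : Integrable (fun z => ESx.cl n (f z)) (Measure.pi fun _ : ι => ν) :=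
      Integrable.of_bound hm.aestronglyMeasurable n
        (Filter.Eventually.of_forall fun z => ESx.cl_bd n _)
    have hi2 : Integrable (fun z => (ESx.cl n (f z)) ^ 2) (Measure.pi fun _ : ι => ν) :=
      Integrable.of_bound (hm.pow_const 2).aestronglyMeasurable ((n : ℝ) ^ 2)
        (Filter.Eventually.of_forall fun z => by
          rw [norm_pow]
          exact pow_le_pow_left₀ (norm_nonneg _) (ESx.cl_bd n _) 2)
    rw [← ESx.var_eq _ _ hi1 hi2]
    refine (ESx.es_bdd ν (fun z => ESx.cl n (f z)) hm (fun z => ESx.cl_bd n _)).trans ?_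
    refine Finset.sum_le_sum fun i _ => ?_
    have hmp := ESx.pbb_mp ν i
    have hu : Measurable fun q : (ι → ℝ) × ℝ => f (Function.update q.1 i q.2) :=
      hfm.comp measurable_update'
    have hKm : Measurable fun q : (ι → ℝ) × ℝ =>
        (max (f q.1 - f (Function.update q.1 i q.2)) 0) ^ 2 :=
      (((hfm.comp measurable_fst).sub hu).max measurable_const).pow_const 2
    have hKi : Integrable (fun q : (ι → ℝ) × ℝ =>
        (max (f q.1 - f (Function.update q.1 i q.2)) 0) ^ 2)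
        ((Measure.pi fun _ : ι => ν).prod ν) := by
      have h1 : Integrable (fun q : (ι → ℝ) × ℝ => f q.1 ^ 2)
          ((Measure.pi fun _ : ι => ν).prod ν) := hf2.comp_fst ν
      have h2 : Integrable (fun q : (ι → ℝ) × ℝ => f (Function.update q.1 i q.2) ^ 2)
          ((Measure.pi fun _ : ι => ν).prod ν) :=
        hmp.integrable_comp_of_integrable (g := fun z => f z ^ 2) hf2
      refine ((h1.add h2).const_mul 2).mono' hKm.aestronglyMeasurable
        (Filter.Eventually.of_forall fun q => ?_)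
      rw [Real.norm_eq_abs, abs_of_nonneg (sq_nonneg _)]
      have h3 := ESx.pos_neg (f q.1) (f (Function.update q.1 i q.2))
      have h4 := sq_nonneg (max (f (Function.update q.1 i q.2) - f q.1) 0)
      have h5 := sq_nonneg (f q.1 + f (Function.update q.1 i q.2))
      simp only [Pi.add_apply]
      nlinarith
    have hKm' : Measurable fun q : (ι → ℝ) × ℝ =>
        (max (ESx.cl n (f q.1) - ESx.cl n (f (Function.update q.1 i q.2))) 0) ^ 2 :=
      ((((ESx.cl_cont n).measurable.comp (hfm.comp measurable_fst)).sub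
        ((ESx.cl_cont n).measurable.comp hu)).max measurable_const).pow_const 2
    have hKi' : Integrable (fun q : (ι → ℝ) × ℝ =>
        (max (ESx.cl n (f q.1) - ESx.cl n (f (Function.update q.1 i q.2))) 0) ^ 2)
        ((Measure.pi fun _ : ι => ν).prod ν) := by
      refine hKi.mono' hKm'.aestronglyMeasurable (Filter.Eventually.of_forall fun q => ?_)
      rw [Real.norm_eq_abs, abs_of_nonneg (sq_nonneg _)]
      exact ESx.cl_sub n _ _
    rw [← integral_prod _ hKi, ← integral_prod _ hKi']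
    exact integral_mono hKi' hKi fun q => ESx.cl_sub n _ _
  rw [ESx.var_eq _ _ hf1 hf2]
  refine le_of_tendsto' (f := fun n : ℕ => ∫ z, (ESx.cl n (f z)) ^ 2 ∂(Measure.pi fun _ : ι => ν) -
      (∫ z, ESx.cl n (f z) ∂(Measure.pi fun _ : ι => ν)) ^ 2) (x := atTop) ?_ hn
  have t1 : Tendsto (fun n : ℕ => ∫ z, (ESx.cl n (f z)) ^ 2 ∂(Measure.pi fun _ : ι => ν)) atTop
      (𝓝 (∫ z, f z ^ 2 ∂(Measure.pi fun _ : ι => ν))) := by
    refine tendsto_integral_of_dominated_convergence (fun z => f z ^ 2) (fun n => ?_) hf2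
      (fun n => Filter.Eventually.of_forall fun z => ?_)
      (Filter.Eventually.of_forall fun z => (ESx.cl_lim (f z)).pow 2)
    · exact (((ESx.cl_cont n).measurable.comp hfm).pow_const 2).aestronglyMeasurable
    · rw [Real.norm_eq_abs, abs_of_nonneg (sq_nonneg _)]
      exact sq_le_sq.2 (ESx.cl_abs n _)
  have t2 : Tendsto (fun n : ℕ => ∫ z, ESx.cl n (f z) ∂(Measure.pi fun _ : ι => ν)) atTop
      (𝓝 (∫ z, f z ∂(Measure.pi fun _ : ι => ν))) := by
    refine tendsto_integral_of_dominated_convergence (fun z => |f z|) (fun n => ?_) hf1.abs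
      (fun n => Filter.Eventually.of_forall fun z => ?_)
      (Filter.Eventually.of_forall fun z => ESx.cl_lim (f z))
    · exact ((ESx.cl_cont n).measurable.comp hfm).aestronglyMeasurable
    · rw [Real.norm_eq_abs]
      exact ESx.cl_abs n _
  exact t1.sub (t2.pow 2)

end KK14
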